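import Pool.Agent.helper74.FD.SpecF

set_option autoImplicit false

open MeasureTheory Filter Set
open scoped ContDiff Topology ComplexConjugate

namespace Pool.Agent.FD

/-- the total thickening after `k` steps -/
noncomputable def FPC_b (Λ θ L : ℝ) (k : ℕ) : ℝ := ∑ i ∈ Finset.range k, Λ / (θ ^ i / L)

theorem FPC_bd {Λ θ L : ℝ} (hΛ : 0 < Λ) (hθ : 0 < θ) (hθ2 : θ ≤ 1 / 2) (hL : 0 < L) (k : ℕ) :
    0 ≤ FPC_b Λ θ L k ∧ FPC_b Λ θ L k ≤ 2 * Λ * θ / (θ ^ k / L) := by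
  induction k with
  | zero =>
    unfold FPC_b
    rw [Finset.range_zero, Finset.sum_empty]
    exact ⟨le_rfl, by positivity⟩
  | succ k ih =>
    have hs : FPC_b Λ θ L (k + 1) = FPC_b Λ θ L k + Λ / (θ ^ k / L) := by
      unfold FPC_b
      rw [Finset.sum_range_succ]
    have hp : 0 < Λ / (θ ^ k / L) := by positivity
    rw [hs]
    refine ⟨by linarith [ih.1], ?_⟩
    have h1 : 2 * Λ * θ / (θ ^ (k + 1) / L) = 2 * (Λ / (θ ^ k / L)) := by
      rw [pow_succ]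
      field_simp
    have h2 : 2 * Λ * θ / (θ ^ k / L) = 2 * θ * (Λ / (θ ^ k / L)) := by
      field_simp
    rw [h1]
    have h3 : 2 * θ * (Λ / (θ ^ k / L)) ≤ 1 * (Λ / (θ ^ k / L)) := mul_le_mul_of_nonneg_right (by linarith) hp.le
    have h4 := ih.2
    rw [h2] at h4
    linarith

theorem FPC_proof (hFT1 : FT1_stmt) (hSCF : SCF_stmt) (hPRF : PRF_stmt) (hSTP : STP_stmt) : FPC_stmt := by
  intro ν L ε hν hν4 hL hε
  obtain ⟨Λ, c, hΛ, hc, hc1, hstep⟩ := hSTP ν hν hν4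
  obtain ⟨-, -, hmono, -⟩ := hSCF
  obtain ⟨p1, -, -, -, p5, p6, p7, -, -⟩ := hPRF
  have hΛ0 : 0 < Λ := by linarith
  have hL0 : 0 < L := by linarith
  set θ : ℝ := ν / (8 * Λ) with hθd
  have hθ : 0 < θ := by positivity
  have hθ2 : θ ≤ 1 / 2 := by
    rw [hθd, div_le_iff₀ (by positivity)]
    linarith
  have hθ1 : θ ≤ 1 := by linarith
  obtain ⟨K, hK⟩ := exists_pow_lt_of_lt_one hε (by linarith : 1 - c / 4 < 1)
  have hpow1 : ∀ k : ℕ, θ ^ k ≤ 1 := fun k => pow_le_one₀ hθ.le hθ1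
  have hsk : ∀ k : ℕ, 0 < θ ^ k / L := fun k => by positivity
  have hsk1 : ∀ k : ℕ, θ ^ k / L ≤ 1 := by
    intro k
    rw [div_le_one hL0]
    linarith [hpow1 k]
  refine ⟨θ ^ K / L, hsk K, hsk1 K, fun X Y f hX hf hY hP => ?_⟩
  -- the induction
  have hind : ∀ k : ℕ, k ≤ K → ∃ g : ℝ → ℂ, CX (fat (FPC_b Λ θ L k) X) g ∧
      ∫ x, ‖g x‖ ^ 2 ≤ (1 - c / 2) ^ k * ∫ x, ‖f x‖ ^ 2 ∧
      ((1 - c / 16) ^ 2) ^ k * ∫ x in Y, ‖f x‖ ^ 2 ≤ ∫ x in Y, ‖g x‖ ^ 2 := by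
    intro k
    induction k with
    | zero =>
      intro _
      refine ⟨f, ?_, by rw [pow_zero, one_mul], by rw [pow_zero, one_mul]⟩
      refine hmono X _ f ?_ (p6 _ 1 X hf.bd).1 hf
      intro x hx
      refine ⟨x, hx, ?_⟩
      rw [sub_self, abs_zero]
      exact (FPC_bd hΛ0 hθ hθ2 hL0 0).1
    | succ k ih =>
      intro hkK
      obtain ⟨g, hg, hg1, hg2⟩ := ih (by omega)
      obtain ⟨hb0, hb1⟩ := FPC_bd hΛ0 hθ hθ2 hL0 k
      -- porosity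
      have hpor : Por (ν / 2) (θ ^ k / L)⁻¹ (fat (FPC_b Λ θ L k) X) := by
        have h1 := p1 ν L (FPC_b Λ θ L k) X hν hL0 hb0 hX
        refine p5 (ν / 2) (ν / 2) _ _ _ _ (by positivity) le_rfl (le_trans hL0.le (le_max_left _ _)) ?_ subset_rfl h1
        rw [max_le_iff]
        constructor
        · rw [inv_div, le_div_iff₀ (by positivity)]
          have := mul_le_mul_of_nonneg_left (hpow1 k) hL0.le
          linarith
        · have h2 : 4 * (2 * Λ * θ / (θ ^ k / L)) / ν = (θ ^ k / L)⁻¹ := by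
            rw [hθd]
            field_simp
            norm_num
          rw [← h2]
          exact div_le_div_of_nonneg_right (by linarith) hν.le
      have hKk : θ ^ K / L ≤ θ ^ k / L := by
        refine div_le_div_of_nonneg_right ?_ hL0.le
        exact pow_le_pow_of_le_one hθ.le hθ1 (by omega)
      obtain ⟨g', h1, h2, h3⟩ := hstep (θ ^ k / L) (fat (FPC_b Λ θ L k) X) Y g (hsk k) hpor hg hY (by
        intro j
        obtain ⟨u, hu1, hu2, hu3⟩ := hP (j * (θ ^ k / L)) ((j + 1) * (θ ^ k / L)) (by linarith) (by linarith [hsk1 k])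
        have e : (j + 1 : ℝ) * (θ ^ k / L) - j * (θ ^ k / L) = θ ^ k / L := by ring
        rw [e] at hu2 hu3
        exact ⟨u, hu1, hu2, hu3⟩)
      refine ⟨g', ?_, ?_, ?_⟩
      · refine hmono _ _ g' ?_ (p6 _ 1 X hf.bd).1 h1
        have hs : FPC_b Λ θ L (k + 1) = Λ / (θ ^ k / L) + FPC_b Λ θ L k := by
          unfold FPC_b
          rw [Finset.sum_range_succ]
          ring
        rw [hs]
        exact p7 _ _ X
      · refine h2.trans ?_
        have h4 : (1 - c / 2) * ∫ x, ‖g x‖ ^ 2 ≤ (1 - c / 2) * ((1 - c / 2) ^ k * ∫ x, ‖f x‖ ^ 2) :=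
          mul_le_mul_of_nonneg_left hg1 (by linarith)
        refine h4.trans (le_of_eq ?_)
        rw [pow_succ]
        ring
      · refine le_trans ?_ h3
        have h4 : (1 - c / 16) ^ 2 * (((1 - c / 16) ^ 2) ^ k * ∫ x in Y, ‖f x‖ ^ 2) ≤ (1 - c / 16) ^ 2 * ∫ x in Y, ‖g x‖ ^ 2 :=
          mul_le_mul_of_nonneg_left hg2 (by positivity)
        refine le_trans (le_of_eq ?_) h4
        rw [pow_succ]
        ring
  obtain ⟨g, hg, hg1, hg2⟩ := hind K le_rfl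
  have hgi : Integrable (fun x => ‖g x‖ ^ 2) := (hFT1 _ g hg).2.2.2.2.2.2.1
  have h1 : ∫ x in Y, ‖g x‖ ^ 2 ≤ ∫ x, ‖g x‖ ^ 2 :=
    setIntegral_le_integral hgi (Eventually.of_forall fun x => by positivity)
  have hI : 0 ≤ ∫ x, ‖f x‖ ^ 2 := integral_nonneg fun x => by positivity
  have hq : (1 - c / 2) ^ K ≤ ((1 - c / 16) ^ 2) ^ K * (1 - c / 4) ^ K := by
    rw [← mul_pow]
    refine pow_le_pow_left₀ (by linarith) ?_ K
    nlinarith [mul_pos hc hc, mul_nonneg (mul_pos hc hc).le (by linarith : (0 : ℝ) ≤ 1 - c)]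
  have hpos : 0 < ((1 - c / 16) ^ 2) ^ K := by
    have : 0 < 1 - c / 16 := by linarith
    positivity
  have h2 : ((1 - c / 16) ^ 2) ^ K * ∫ x in Y, ‖f x‖ ^ 2 ≤ ((1 - c / 16) ^ 2) ^ K * (ε * ∫ x, ‖f x‖ ^ 2) := by
    calc ((1 - c / 16) ^ 2) ^ K * ∫ x in Y, ‖f x‖ ^ 2 ≤ (1 - c / 2) ^ K * ∫ x, ‖f x‖ ^ 2 := (hg2.trans h1).trans hg1
      _ ≤ ((1 - c / 16) ^ 2) ^ K * (1 - c / 4) ^ K * ∫ x, ‖f x‖ ^ 2 := mul_le_mul_of_nonneg_right hq hI
      _ = ((1 - c / 16) ^ 2) ^ K * ((1 - c / 4) ^ K * ∫ x, ‖f x‖ ^ 2) := by ring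
      _ ≤ ((1 - c / 16) ^ 2) ^ K * (ε * ∫ x, ‖f x‖ ^ 2) :=
        mul_le_mul_of_nonneg_left (mul_le_mul_of_nonneg_right hK.le hI) hpos.le
  exact le_of_mul_le_mul_left h2 hpos

end Pool.Agent.FD
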