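import Pool.Agent.helper74.FD.SpecF

set_option autoImplicit false

open MeasureTheory Filter Set
open scoped ContDiff Topology ComplexConjugate

namespace Pool.Agent.FD

theorem SCF_dil {X : Set ℝ} {f : ℝ → ℂ} {s : ℝ} (hs : 0 < s) (hf : CX X f) : CX (dil s X) (fun x => f (s * x)) := by
  obtain ⟨⟨R, hR⟩, hc, hi, hsp⟩ := hf
  refine ⟨⟨s * R, ?_⟩, by fun_prop, hi.comp_mul_left' hs.ne', ?_⟩
  · rintro x ⟨y, hy, rfl⟩
    rw [abs_mul, abs_of_pos hs]
    exact mul_le_mul_of_nonneg_left (hR y hy) hs.le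
  · intro ξ hξ
    have h1 : ξ / s ∉ X := fun h => hξ ⟨ξ / s, h, by field_simp⟩
    have h2 := hsp _ h1
    unfold ft at h2 ⊢
    have h3 : ∀ x : ℝ, f (s * x) * Complex.exp (((-(2 * Real.pi * x * ξ) : ℝ) : ℂ) * Complex.I) =
        (fun y : ℝ => f y * Complex.exp (((-(2 * Real.pi * y * (ξ / s)) : ℝ) : ℂ) * Complex.I)) (s * x) := by
      intro x
      have h4 : 2 * Real.pi * (s * x) * (ξ / s) = 2 * Real.pi * x * ξ := by
        field_simp
      simp only [h4]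
    rw [integral_congr_ae (Eventually.of_forall h3)]
    rw [Measure.integral_comp_mul_left (fun y : ℝ => f y * Complex.exp (((-(2 * Real.pi * y * (ξ / s)) : ℝ) : ℂ) * Complex.I)) s,
      h2, smul_zero]

theorem SCF_tr {X : Set ℝ} {f : ℝ → ℂ} {t : ℝ} (hf : CX X f) : CX X (fun x => f (x + t)) := by
  obtain ⟨hb, hc, hi, hsp⟩ := hf
  refine ⟨hb, by fun_prop, hi.comp_add_right t, ?_⟩
  intro ξ hξ
  have h2 := hsp _ hξ
  unfold ft at h2 ⊢
  have h3 : ∀ x : ℝ, f (x + t) * Complex.exp (((-(2 * Real.pi * x * ξ) : ℝ) : ℂ) * Complex.I) =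
      (fun y : ℝ => Complex.exp (((2 * Real.pi * t * ξ : ℝ) : ℂ) * Complex.I) *
        (f y * Complex.exp (((-(2 * Real.pi * y * ξ) : ℝ) : ℂ) * Complex.I))) (x + t) := by
    intro x
    have h4 : Complex.exp (((-(2 * Real.pi * x * ξ) : ℝ) : ℂ) * Complex.I) = Complex.exp (((2 * Real.pi * t * ξ : ℝ) : ℂ) * Complex.I) *
        Complex.exp (((-(2 * Real.pi * (x + t) * ξ) : ℝ) : ℂ) * Complex.I) := by
      rw [← Complex.exp_add]
      congr 1
      push_cast
      ring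
    simp only
    rw [h4]
    ring
  rw [integral_congr_ae (Eventually.of_forall h3)]
  rw [integral_add_right_eq_self (fun y : ℝ => Complex.exp (((2 * Real.pi * t * ξ : ℝ) : ℂ) * Complex.I) *
        (f y * Complex.exp (((-(2 * Real.pi * y * ξ) : ℝ) : ℂ) * Complex.I))) t, integral_const_mul, h2, mul_zero]

theorem SCF_set (f : ℝ → ℂ) (s : ℝ) (S : Set ℝ) (hs : 0 < s) :
    ∫ x in {x | s * x ∈ S}, ‖f (s * x)‖ ^ 2 = s⁻¹ * ∫ x in S, ‖f x‖ ^ 2 := by
  have he : MeasurableEmbedding (fun x : ℝ => s * x) := (Homeomorph.mulLeft₀ s hs.ne').measurableEmbedding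
  have h1 := he.setIntegral_map (μ := volume) (fun y => ‖f y‖ ^ 2) S
  rw [Real.map_volume_mul_left hs.ne', Measure.restrict_smul, integral_smul_measure] at h1
  have h2 : (ENNReal.ofReal |s⁻¹|).toReal = s⁻¹ := by
    rw [ENNReal.toReal_ofReal (abs_nonneg _), abs_of_pos (inv_pos.2 hs)]
  rw [h2, smul_eq_mul] at h1
  exact h1.symm

theorem SCF_proof : SCF_stmt := by
  refine ⟨fun X f s hs hf => SCF_dil hs hf, fun X f t hf => SCF_tr hf, ?_, fun f s S hs => SCF_set f s S hs⟩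
  intro X X' f h hb hf
  exact ⟨hb, hf.cont, hf.int, fun ξ hξ => hf.sp ξ fun h' => hξ (h h')⟩

end Pool.Agent.FD
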