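import Pool.Agent.helper74.FD.SpecG

set_option autoImplicit false

open scoped MatrixGroups ContDiff Topology UpperHalfPlane ComplexConjugate
open UpperHalfPlane MeasureTheory Filter Set

namespace Pool.Agent.FD

open Pool.Agent.RS Pool.Agent.MS
open Pool.Agent.EN (XG MG mkX mkM fl pr)

theorem TRS_proof (hDEN : DEN_stmt) (hGLC : RS.GLC_stmt) : TRS_stmt := by
  intro Γ W1 W2 hΓ hW1 hW1n _ hW2 hW2n hI2
  obtain ⟨-, -, -, -, -, hlc, -, -, -, -, ha, -, hl, -, -, -, -, -, hla, -⟩ := hGLC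
  obtain ⟨h0, hh0⟩ := hW1n
  have hl0 : lM 0 = 1 := by
    have h1 := hl 0 0
    rw [add_zero] at h1
    exact (mul_eq_left.1 h1.symm)
  have hc : Continuous (fun u : ℝ => h0 * lM u) := continuous_const.mul hlc
  have hmem : (fun u : ℝ => h0 * lM u) ⁻¹' W1 ∈ 𝓝 (0 : ℝ) := by
    refine (hW1.preimage hc).mem_nhds ?_
    show h0 * lM 0 ∈ W1
    rw [hl0, mul_one]
    exact hh0
  obtain ⟨r, hr, hball⟩ := Metric.mem_nhds_iff.1 hmem
  set δ : ℝ := r / 2 with hδ
  have hδ0 : 0 < δ := by positivity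
  obtain ⟨T0, c, hT0, hc0, hc4, hD⟩ := hDEN Γ W2 hΓ hW2 hW2n hI2
  obtain ⟨t, v0, ht0, ht1, hv0, hv1, hv⟩ := hD (h0 * aM (-Real.log δ))
  have h2 := hv v0 (by rw [sub_self, abs_zero]; exact hc0.le)
  have hv00 : 0 ≤ v0 := by linarith
  have hv11 : v0 ≤ 1 := by linarith
  refine ⟨h0 * lM (δ * v0), -Real.log δ + t, ?_, ?_⟩
  · have h3 : δ * v0 ∈ Metric.ball (0 : ℝ) r := by
      rw [Metric.mem_ball, Real.dist_eq, sub_zero, abs_of_nonneg (by positivity)]
      have : δ * v0 ≤ δ * 1 := mul_le_mul_of_nonneg_left hv11 hδ0.le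
      linarith
    exact hball h3
  · have h4 : lM (δ * v0) * aM (-Real.log δ) = aM (-Real.log δ) * lM v0 := by
      rw [hla]
      congr 2
      rw [Real.exp_neg, Real.exp_log hδ0, ← mul_assoc, inv_mul_cancel₀ hδ0.ne', one_mul]
    have h5 : h0 * lM (δ * v0) * aM (-Real.log δ + t) = h0 * aM (-Real.log δ) * lM v0 * aM t := by
      rw [ha, ← mul_assoc, mul_assoc h0, h4, ← mul_assoc]
    rw [h5]
    exact h2

end Pool.Agent.FD
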